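import Pool.Agent.Helper59.HR.Spec

/-! # HR, parts WAL and RNK -/

set_option autoImplicit false

open MvPolynomial Pool.Agent.Helper59.LP

namespace Pool.Agent.Helper76.HR

variable {J : Type} [Fintype J] [DecidableEq J]

omit [Fintype J] [DecidableEq J] in
lemma xm_hom (F : Finset J) : (xm F).IsHomogeneous F.card := by
  have h := IsHomogeneous.prod F (fun j => (X j : MvPolynomial J ℝ)) (fun _ => 1)
    (fun j _ => isHomogeneous_X ℝ j)
  simpa [xm] using h

omit [Fintype J] [DecidableEq J] in
lemma xm_eval (F : Finset J) (lam : J → ℝ) (h : ∀ j ∈ F, lam j ≠ 0) : eval lam (xm F) ≠ 0 := by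
  rw [xm, map_prod]
  exact Finset.prod_ne_zero_iff.2 fun j hj => by rw [eval_X]; exact h j hj

omit [Fintype J] [DecidableEq J] in
/-- a linear form with value one -/
lemma exists_z (lam : J → ℝ) (j : J) (hj : lam j ≠ 0) :
    ∃ z : MvPolynomial J ℝ, z.IsHomogeneous 1 ∧ eval lam z = 1 := by
  refine ⟨C (lam j)⁻¹ * X j, ?_, ?_⟩
  · simpa using (isHomogeneous_C J (lam j)⁻¹).mul (isHomogeneous_X ℝ j)
  · simp [hj]

omit [Fintype J] [DecidableEq J] in
lemma mono_step (s : J →₀ ℕ) (m : ℕ) (hs : s.degree = m + 1) :
    ∃ (j : J) (s' : J →₀ ℕ), s'.degree = m ∧ ∀ c : ℝ, monomial s c = X j * monomial s' c := by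
  have hne : s ≠ 0 := by
    rintro rfl
    simp at hs
  obtain ⟨j, hj⟩ := Finsupp.ne_iff.1 hne
  have hj' : s j ≠ 0 := by simpa using hj
  have hle : Finsupp.single j 1 ≤ s := by
    rw [Finsupp.single_le_iff]
    omega
  refine ⟨j, s - Finsupp.single j 1, ?_, ?_⟩
  · have h1 : (s - Finsupp.single j 1 + Finsupp.single j 1).degree = m + 1 := by
      rw [tsub_add_cancel_of_le hle, hs]
    rw [map_add, Finsupp.degree_single] at h1
    omega
  · intro c
    rw [X, monomial_mul, one_mul, add_tsub_cancel_of_le hle]

omit [DecidableEq J] in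
theorem wal : S_WAL := by
  intro J _ _ φ lam n k a B ha hkn hBk hlam hB h1 h2
  obtain ⟨j₀, hj₀⟩ := Function.ne_iff.1 hlam
  obtain ⟨z, hz, hzv⟩ := exists_z lam j₀ hj₀
  -- the value on monomials
  have key : ∀ m, m ≤ n - k → ∀ s : J →₀ ℕ, s.degree = m → ∀ c : ℝ,
      φ (a * (monomial s c * z ^ (n - k - m))) =
        eval lam (monomial s c) * φ (a * z ^ (n - k)) := by
    intro m
    induction m with
    | zero =>
      intro _ s hs c
      have hs0 : s = 0 := (Finsupp.degree_eq_zero_iff s).1 hs
      subst hs0
      have : (monomial (0 : J →₀ ℕ) c : MvPolynomial J ℝ) = C c := rfl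
      rw [this, eval_C, Nat.sub_zero, ← smul_eq_C_mul, mul_smul_comm, map_smul, smul_eq_mul]
    | succ m ih =>
      intro hm s hs c
      obtain ⟨j, s', hs', hmon⟩ := mono_step s m hs
      rw [hmon c, (eval lam).map_mul, eval_X]
      have hl : (X j - C (lam j) * z : MvPolynomial J ℝ).IsHomogeneous 1 := by
        apply (isHomogeneous_X ℝ j).sub
        simpa using (isHomogeneous_C J (lam j)).mul hz
      have hl0 : eval lam (X j - C (lam j) * z) = 0 := by simp [hzv]
      have hb : (monomial s' c * z ^ (n - k - (m + 1))).IsHomogeneous (n - 1 - k) := by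
        have := (isHomogeneous_monomial (R := ℝ) c (d := s') hs').mul (hz.pow (n - k - (m + 1)))
        have he : m + 1 * (n - k - (m + 1)) = n - 1 - k := by omega
        rwa [he] at this
      have h3 := h2 _ hl hl0 _ hb
      have h4 := ih (by omega) s' hs' c
      have e : a * (X j * monomial s' c * z ^ (n - k - (m + 1))) =
          (X j - C (lam j) * z) * (a * (monomial s' c * z ^ (n - k - (m + 1)))) +
            C (lam j) * (a * (monomial s' c * z ^ (n - k - m))) := by
        have : n - k - m = (n - k - (m + 1)) + 1 := by omega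
        rw [this, pow_succ]
        ring
      rw [e, map_add, h3, zero_add, ← smul_eq_C_mul, map_smul, h4, smul_eq_mul, mul_assoc]
  have key2 : ∀ b : MvPolynomial J ℝ, b.IsHomogeneous (n - k) →
      φ (a * b) = eval lam b * φ (a * z ^ (n - k)) := by
    intro b hb
    have hbs : b = ∑ s ∈ b.support, monomial s (coeff s b) := (support_sum_monomial_coeff b).symm
    have h5 : φ (a * b) = ∑ s ∈ b.support, φ (a * monomial s (coeff s b)) := by
      conv_lhs => rw [hbs]
      rw [Finset.mul_sum, map_sum]
    have h6 : eval lam b = ∑ s ∈ b.support, eval lam (monomial s (coeff s b)) := by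
      conv_lhs => rw [hbs]
      rw [map_sum]
    rw [h5, h6, Finset.sum_mul]
    apply Finset.sum_congr rfl
    intro s hs
    have hd : s.degree = n - k := by
      have := hb (mem_support_iff.1 hs)
      rw [Finsupp.degree_eq_weight_one]
      exact this
    have := key (n - k) le_rfl s hd (coeff s b)
    simpa using this
  have h7 : φ (a * z ^ (n - k)) = 0 := by
    have hx : (xm B * z ^ (n - k - B.card)).IsHomogeneous (n - k) := by
      have := (xm_hom B).mul (hz.pow (n - k - B.card))
      have he : B.card + 1 * (n - k - B.card) = n - k := by omega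
      rwa [he] at this
    have h8 := key2 _ hx
    have h9 : φ (a * (xm B * z ^ (n - k - B.card))) = 0 := by
      have hf : (a * z ^ (n - k - B.card)).IsHomogeneous (n - B.card) := by
        have := ha.mul (hz.pow (n - k - B.card))
        have he : k + 1 * (n - k - B.card) = n - B.card := by omega
        rwa [he] at this
      have := h1 _ (n - B.card) (by omega) hf
      rw [← this]
      congr 1
      ring
    rw [h9] at h8
    have h10 : eval lam (xm B * z ^ (n - k - B.card)) ≠ 0 := by
      rw [map_mul, map_pow, hzv, one_pow, mul_one]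
      exact xm_eval B lam hB
    exact (mul_eq_zero.1 h8.symm).resolve_left h10
  intro b hb
  rw [key2 b hb, h7, mul_zero]

/-- evaluation on a homogeneous component -/
noncomputable def evh (lam : J → ℝ) (k : ℕ) : homogeneousSubmodule J ℝ k →ₗ[ℝ] ℝ where
  toFun a := eval lam a.1
  map_add' a b := by simp
  map_smul' t a := by simp [smul_eval]

omit [Fintype J] [DecidableEq J] in
lemma evh_apply (lam : J → ℝ) (k : ℕ) (a : homogeneousSubmodule J ℝ k) :
    evh lam k a = eval lam a.1 := rfl

theorem rnk : S_RNK := by
  intro J _ _ φ ψ n lam κ A B hκ hAB hBA hA hB hψ hφB hψA k hk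
  have hne : ∃ j, lam j ≠ 0 := by
    rcases Finset.eq_empty_or_nonempty A with h | ⟨j, hj⟩
    · rcases Finset.eq_empty_or_nonempty B with h' | ⟨j, hj⟩
      · rw [h, h'] at hAB
        simp at hAB
      · exact ⟨j, hB j hj⟩
    · exact ⟨j, hA j hj⟩
  obtain ⟨j₀, hj₀⟩ := hne
  obtain ⟨z, hz, hzv⟩ := exists_z lam j₀ hj₀
  -- test elements
  have tst : ∀ (D : Finset J) (m : ℕ), D.card ≤ m → (∀ j ∈ D, lam j ≠ 0) →
      (xm D * z ^ (m - D.card)).IsHomogeneous m ∧ eval lam (xm D * z ^ (m - D.card)) ≠ 0 := by
    intro D m hDm hD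
    constructor
    · have := (xm_hom D).mul (hz.pow (m - D.card))
      have he : D.card + 1 * (m - D.card) = m := by omega
      rwa [he] at this
    · rw [map_mul, map_pow, hzv, one_pow, mul_one]
      exact xm_eval D lam hD
  have hval : ∀ (a b : MvPolynomial J ℝ), a.IsHomogeneous k → b.IsHomogeneous (n - k) →
      ψ (a * b) = φ (a * b) + κ * (eval lam a * eval lam b) := by
    intro a b ha hb
    have hab : (a * b).IsHomogeneous n := by
      have := ha.mul hb
      have he : k + (n - k) = n := by omega
      rwa [he] at this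
    rw [hψ _ hab, (eval lam).map_mul]
  have kill : ∀ (χ : MvPolynomial J ℝ →ₗ[ℝ] ℝ) (D : Finset J),
      (∀ f m, D.card + m = n → f.IsHomogeneous m → χ (xm D * f) = 0) →
      ∀ (i l : ℕ), D.card ≤ i → i + l = n → ∀ b : MvPolynomial J ℝ, b.IsHomogeneous l →
        χ (xm D * z ^ (i - D.card) * b) = 0 := by
    intro χ D hχ i l hDi hil b hb
    have hf : (z ^ (i - D.card) * b).IsHomogeneous (n - D.card) := by
      have := (hz.pow (i - D.card)).mul hb
      have he : 1 * (i - D.card) + l = n - D.card := by omega
      rwa [he] at this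
    have := hχ _ (n - D.card) (by omega) hf
    rw [← this, mul_assoc]
  by_cases hqk : B.card ≤ k
  · rw [if_pos hqk]
    obtain ⟨ha0, ha1⟩ := tst B k hqk hB
    obtain ⟨hb0, hb1⟩ := tst B (n - k) (by omega) hB
    set a0 : homogeneousSubmodule J ℝ k := ⟨_, ha0⟩ with ha0def
    set b0 : homogeneousSubmodule J ℝ (n - k) := ⟨_, hb0⟩ with hb0def
    have e1 : ∀ a : homogeneousSubmodule J ℝ k,
        Hf ψ k (n - k) a = Hf φ k (n - k) a + (κ * eval lam a.1) • evh lam (n - k) := by
      intro a
      apply LinearMap.ext
      intro b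
      have := hval a.1 b.1 a.2 b.2
      rw [LinearMap.add_apply, LinearMap.smul_apply, evh_apply]
      show ψ (a.1 * b.1) = φ (a.1 * b.1) + _
      rw [this, smul_eq_mul]
      ring
    have e2 : Hf φ k (n - k) a0 = 0 := by
      apply LinearMap.ext
      intro b
      show φ (a0.1 * b.1) = 0
      exact kill φ B hφB k (n - k) hqk (by omega) b.1 b.2
    have e3 : ∀ a, Hf φ k (n - k) a b0 = 0 := by
      intro a
      show φ (a.1 * b0.1) = 0
      rw [mul_comm]
      exact kill φ B hφB (n - k) k (by omega) (by omega) a.1 a.2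
    have hev : evh lam (n - k) ∈ LinearMap.range (Hf ψ k (n - k)) := by
      refine ⟨(κ * eval lam a0.1)⁻¹ • a0, ?_⟩
      rw [map_smul, e1, e2, zero_add, smul_smul, inv_mul_cancel₀ (mul_ne_zero hκ ha1), one_smul]
    have hrange : LinearMap.range (Hf ψ k (n - k)) =
        LinearMap.range (Hf φ k (n - k)) ⊔ Submodule.span ℝ {evh lam (n - k)} := by
      apply le_antisymm
      · rintro _ ⟨a, rfl⟩
        rw [e1]
        exact Submodule.add_mem_sup ⟨a, rfl⟩
          (Submodule.smul_mem _ _ (Submodule.mem_span_singleton_self _))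
      · rw [sup_le_iff]
        constructor
        · rintro _ ⟨a, rfl⟩
          have : Hf φ k (n - k) a =
              Hf ψ k (n - k) a - (κ * eval lam a.1) • evh lam (n - k) := by
            rw [e1]; abel
          rw [this]
          exact Submodule.sub_mem _ ⟨a, rfl⟩ (Submodule.smul_mem _ _ hev)
        · rw [Submodule.span_singleton_le_iff_mem]
          exact hev
    have hnot : evh lam (n - k) ∉ LinearMap.range (Hf φ k (n - k)) := by
      rintro ⟨a, ha⟩
      have h1 := e3 a
      rw [ha, evh_apply] at h1
      exact hb1 h1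
    have hev0 : evh lam (n - k) ≠ 0 := by
      intro h0
      apply hnot
      rw [h0]
      exact Submodule.zero_mem _
    unfold rk
    rw [hrange]
    have hdisj : LinearMap.range (Hf φ k (n - k)) ⊓ Submodule.span ℝ {evh lam (n - k)} = ⊥ := by
      rw [Submodule.eq_bot_iff]
      rintro x ⟨hx1, hx2⟩
      obtain ⟨t, rfl⟩ := Submodule.mem_span_singleton.1 hx2
      by_contra hx0
      have ht : t ≠ 0 := by
        rintro rfl
        exact hx0 (zero_smul _ _)
      apply hnot
      have := Submodule.smul_mem _ t⁻¹ hx1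
      rwa [smul_smul, inv_mul_cancel₀ ht, one_smul] at this
    have := Submodule.finrank_sup_add_finrank_inf_eq (LinearMap.range (Hf φ k (n - k)))
      (Submodule.span ℝ {evh lam (n - k)})
    rw [hdisj, finrank_bot, add_zero, finrank_span_singleton hev0] at this
    exact this
  · rw [if_neg hqk, add_zero]
    have hker : LinearMap.ker (Hf ψ k (n - k)) = LinearMap.ker (Hf φ k (n - k)) := by
      ext a
      rw [LinearMap.mem_ker, LinearMap.mem_ker]
      constructor
      · intro h
        obtain ⟨hb0, hb1⟩ := tst B (n - k) (by omega) hB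
        have h1 : ψ (a.1 * (xm B * z ^ (n - k - B.card))) = 0 :=
          LinearMap.congr_fun h ⟨_, hb0⟩
        have h2 : φ (a.1 * (xm B * z ^ (n - k - B.card))) = 0 := by
          rw [mul_comm]
          exact kill φ B hφB (n - k) k (by omega) (by omega) a.1 a.2
        have h3 := hval a.1 _ a.2 hb0
        rw [h1, h2, zero_add] at h3
        have h4 : eval lam a.1 = 0 := by
          have := (mul_eq_zero.1 h3.symm).resolve_left hκ
          exact (mul_eq_zero.1 this).resolve_right hb1
        apply LinearMap.ext
        intro b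
        show φ (a.1 * b.1) = 0
        have h5 := hval a.1 b.1 a.2 b.2
        have h6 : ψ (a.1 * b.1) = 0 := LinearMap.congr_fun h b
        rw [h6, h4, zero_mul, mul_zero, add_zero] at h5
        exact h5.symm
      · intro h
        obtain ⟨hb0, hb1⟩ := tst A (n - k) (by omega) hA
        have h1 : φ (a.1 * (xm A * z ^ (n - k - A.card))) = 0 :=
          LinearMap.congr_fun h ⟨_, hb0⟩
        have h2 : ψ (a.1 * (xm A * z ^ (n - k - A.card))) = 0 := by
          rw [mul_comm]
          exact kill ψ A hψA (n - k) k (by omega) (by omega) a.1 a.2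
        have h3 := hval a.1 _ a.2 hb0
        rw [h1, h2, zero_add] at h3
        have h4 : eval lam a.1 = 0 := by
          have := (mul_eq_zero.1 h3.symm).resolve_left hκ
          exact (mul_eq_zero.1 this).resolve_right hb1
        apply LinearMap.ext
        intro b
        show ψ (a.1 * b.1) = 0
        have h5 := hval a.1 b.1 a.2 b.2
        have h6 : φ (a.1 * b.1) = 0 := LinearMap.congr_fun h b
        rw [h6, h4, zero_mul, mul_zero, add_zero] at h5
        exact h5
    have h1 := LinearMap.finrank_range_add_finrank_ker (Hf ψ k (n - k))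
    have h2 := LinearMap.finrank_range_add_finrank_ker (Hf φ k (n - k))
    unfold rk
    rw [hker] at h1
    omega

end Pool.Agent.Helper76.HR

namespace Pool.Agent.Helper76.HR.RNK
theorem main : S_RNK := rnk
end Pool.Agent.Helper76.HR.RNK

namespace Pool.Agent.Helper76.HR.WAL
theorem main : S_WAL := wal
end Pool.Agent.Helper76.HR.WAL
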